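import Pool.Agent.H891FSS.FD_RES

set_option autoImplicit false

namespace Pool.Agent.Results.MP_ffac5a_co.SubcubicFreeSets

open Pool.Agent.H891WLC

/-- `p` is a straight-line crossing-free drawing of `G`: distinct vertices are distinct points, every
edge is the open segment between its ends, no edge contains (the image of) a vertex, and distinct
edges are disjoint. -/
def Drawing {V : Type} (G : SimpleGraph V) (p : V → ℝ × ℝ) : Prop :=
  Function.Injective p ∧
    (∀ u v w : V, G.Adj u v → p w ∉ openSegment ℝ (p u) (p v)) ∧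
    (∀ u v x y : V, G.Adj u v → G.Adj x y → s(u, v) ≠ s(x, y) →
      Disjoint (openSegment ℝ (p u) (p v)) (openSegment ℝ (p x) (p y)))

/-- `G` is planar (it has a straight-line crossing-free drawing) -/
def Planar {V : Type} (G : SimpleGraph V) : Prop := ∃ p : V → ℝ × ℝ, Drawing G p

/-- every vertex has degree at most three -/
def MaxDegreeThree {V : Type} (G : SimpleGraph V) : Prop := ∀ v, Set.ncard {x | G.Adj v x} ≤ 3

/-- `S` is a free set of `G`: for every set `P` of `|S|` points there is a straight-line crossing-free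
drawing of `G` in which the vertices of `S` are mapped onto the points of `P`. -/
def IsFreeSet {V : Type} (G : SimpleGraph V) (S : Finset V) : Prop :=
  ∀ P : Finset (ℝ × ℝ), P.card = S.card →
    ∃ p : V → ℝ × ℝ, Drawing G p ∧ p '' (S : Set V) = (P : Set (ℝ × ℝ))

theorem drawing_of_plane {V : Type} {G : SimpleGraph V} {p : V → ℝ × ℝ} (h : Plane G p) :
    Drawing G p := by
  obtain ⟨hinj, hv, he⟩ := h
  have hend : ∀ u v : V, u ≠ v → p u ∉ openSegment ℝ (p u) (p v) := by
    intro u v huv hmem
    exact huv (hinj (left_mem_openSegment_iff.mp hmem))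
  have hend' : ∀ u v : V, u ≠ v → p v ∉ openSegment ℝ (p u) (p v) := by
    intro u v huv hmem
    rw [openSegment_symm] at hmem
    exact hend v u huv.symm hmem
  refine ⟨hinj, ?_, ?_⟩
  · intro u v w huv hmem
    by_cases h1 : w = u
    · subst h1; exact hend _ _ huv.ne hmem
    · by_cases h2 : w = v
      · subst h2; exact hend' _ _ huv.ne hmem
      · exact hv u v w huv h1 h2 (openSegment_subset_segment ℝ _ _ hmem)
  · intro u v x y huv hxy hne
    rw [Set.disjoint_left]
    intro z hz1 hz2
    obtain ⟨w, hw1, hw2, hzw⟩ := he u v x y huv hxy hne z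
      (openSegment_subset_segment ℝ _ _ hz1) (openSegment_subset_segment ℝ _ _ hz2)
    rcases hw1 with rfl | rfl
    · rw [hzw] at hz1; exact hend _ _ huv.ne hz1
    · rw [hzw] at hz1; exact hend' _ _ huv.ne hz1

theorem plane_of_drawing {V : Type} {G : SimpleGraph V} {p : V → ℝ × ℝ} (h : Drawing G p) :
    Plane G p := by
  obtain ⟨hinj, hv, he⟩ := h
  have hcase : ∀ u v : V, ∀ z ∈ segment ℝ (p u) (p v),
      z = p u ∨ z = p v ∨ z ∈ openSegment ℝ (p u) (p v) := by
    intro u v z hz
    rw [← insert_endpoints_openSegment] at hz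
    simpa using hz
  refine ⟨hinj, ?_, ?_⟩
  · intro u v w huv h1 h2 hmem
    rcases hcase u v _ hmem with h | h | h
    · exact h1 (hinj h)
    · exact h2 (hinj h)
    · exact hv u v w huv h
  · intro u v x y huv hxy hne z hz1 hz2
    rcases hcase u v z hz1 with h1 | h1 | h1
    · rcases hcase x y z hz2 with h2 | h2 | h2
      · exact ⟨u, Or.inl rfl, Or.inl (hinj (h1.symm.trans h2)), h1⟩
      · exact ⟨u, Or.inl rfl, Or.inr (hinj (h1.symm.trans h2)), h1⟩
      · exact absurd (h1 ▸ h2) (hv x y u hxy)
    · rcases hcase x y z hz2 with h2 | h2 | h2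
      · exact ⟨v, Or.inr rfl, Or.inl (hinj (h1.symm.trans h2)), h1⟩
      · exact ⟨v, Or.inr rfl, Or.inr (hinj (h1.symm.trans h2)), h1⟩
      · exact absurd (h1 ▸ h2) (hv x y v hxy)
    · rcases hcase x y z hz2 with h2 | h2 | h2
      · exact absurd (h2 ▸ h1) (hv u v x huv)
      · exact absurd (h2 ▸ h1) (hv u v y huv)
      · exact absurd h2 (Set.disjoint_left.mp (he u v x y huv hxy hne) h1)

/-- **The case `Δ = 3` of Q1, affirmative.** There is a constant `c > 0` such that every `n`-vertex
planar graph of maximum degree at most three has a free set of size at least `c n`; moreover every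
set `X` of vertices contains a free set of size at least `c |X|`. -/
theorem result : ∃ c : ℝ, 0 < c ∧ ∀ (V : Type) [Fintype V] (G : SimpleGraph V),
    Planar G → MaxDegreeThree G →
      (∃ S : Finset V, IsFreeSet G S ∧ c * (Fintype.card V : ℝ) ≤ S.card) ∧
      (∀ X : Finset V, ∃ S : Finset V, S ⊆ X ∧ IsFreeSet G S ∧ c * (X.card : ℝ) ≤ S.card) := by
  classical
  refine ⟨1 / 40, by norm_num, ?_⟩
  intro V _ G hP hG
  have main : ∀ X : Finset V, ∃ S : Finset V, S ⊆ X ∧ IsFreeSet G S ∧
      (1 / 40 : ℝ) * (X.card : ℝ) ≤ S.card := by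
    intro X
    obtain ⟨p, hp⟩ := hP
    obtain ⟨S, hSX, hcard, -, hfree⟩ := FD_RES G ⟨p, plane_of_drawing hp⟩ hG X
    refine ⟨S, hSX, ?_, by linarith⟩
    intro P hPc
    obtain ⟨q, hq, hqP⟩ := hfree P hPc
    refine ⟨q, drawing_of_plane hq, ?_⟩
    ext z
    simp only [Set.mem_image, Finset.mem_coe]
    exact hqP z
  refine ⟨?_, main⟩
  obtain ⟨S, -, h1, h2⟩ := main Finset.univ
  exact ⟨S, h1, by simpa using h2⟩

end Pool.Agent.Results.MP_ffac5a_co.SubcubicFreeSets
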